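import Pool.Agent.Helper12.LrFin

/-!
# Chromatic number and rank of graphs covered by Cayley graphs of `F_2^n` given by formulas of depth
# three over parities

Let the vertex set of the graph `G` be covered by the images of `t` maps `φ_i : F_2^(n_i) → V`
such that `φ_i a` and `φ_i b` are adjacent if and only if `f_i (a + b) = 1`; the edges between
different pieces are arbitrary (for `t = 1` and `φ` bijective `G` is a Cayley graph of `F_2^n`). Suppose
that each `f_i` or its negation is the disjunction of `M` formulas, each of which is the conjunction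
of an arbitrary family of constraints of width `k`; a constraint of width `k` is a condition on `x`
which depends only on the values of `k` linear forms (parities of sets of bits). Then
`log χ(G) ≤ log t + 2 ^ k k (k + 1) (L + 2) (L + log M + 5) + 4`, where `L` is the logarithm of the real
rank of `G`. So the bound of the question holds for each fixed `k` and for `t`, `M` at most
quasipolynomial in the rank.

Proof. The restriction of `f` to an affine subspace `V` is a function of the same kind. If it is not
zero then it is one with probability at least `1 / r` on `V`, `r` being the rank of the matrix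
`f (x + y)` restricted to `V`. So one of the conjunctions has density at least `1 / (r M)` on `V`. Dense
conjunctions of this kind contain affine subspaces of small codimension. If `f` is constant on
a subspace of codimension `D` in `V` then two players announce the cosets of their vectors, with `2 D`
bits; the rank `r` is replaced by at most `r / 2 + 1`. The transcripts of this protocol for the pairs
`(x, x)` colour the graph.
-/

set_option autoImplicit false

namespace Pool.Agent.Results.MP_3bd889_lc.DepthThreeParities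

/-- A constraint of width `k`: a condition `φ` on `z ∈ F_2^n` which depends only on the values of `k`
linear forms. -/
def IsConstraint (k n : ℕ) (φ : (Fin n → ZMod 2) → Prop) : Prop :=
  ∃ l : Fin k → ((Fin n → ZMod 2) →ₗ[ZMod 2] ZMod 2),
    ∀ z z', (∀ i, l i z = l i z') → (φ z ↔ φ z')

/-- A conjunction of an arbitrary family `Φ` of constraints of width `k`. -/
def IsConj (k n : ℕ) (F : (Fin n → ZMod 2) → Prop) : Prop :=
  ∃ Φ : Set ((Fin n → ZMod 2) → Prop), (∀ φ ∈ Φ, IsConstraint k n φ) ∧
    ∀ z, F z ↔ ∀ φ ∈ Φ, φ z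

/-- `f` is the disjunction of `M` conjunctions of constraints of width `k`. -/
def GivenBy (k n M : ℕ) (f : (Fin n → ZMod 2) → Bool) : Prop :=
  ∃ F : Fin M → (Fin n → ZMod 2) → Prop, (∀ i, IsConj k n (F i)) ∧
    ∀ z, f z = true ↔ ∃ i, F i z

/-- The vertex set of `G` is covered by the images of `t` maps `φ i : F_2^(n i) → V` such that
`φ i a` and `φ i b` are adjacent if and only if `f i (a + b) = true`, where `f i` or its negation is a
disjunction of `M` conjunctions of constraints of width `k`. -/
def Covered {V : Type} (G : SimpleGraph V) (k M t : ℕ) : Prop :=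
  ∃ (n : Fin t → ℕ) (φ : ∀ i, (Fin (n i) → ZMod 2) → V) (f : ∀ i, (Fin (n i) → ZMod 2) → Bool),
    (∀ v, ∃ i a, φ i a = v) ∧ (∀ i a b, G.Adj (φ i a) (φ i b) ↔ f i (a + b) = true) ∧
    ∀ i, GivenBy k (n i) M (f i) ∨ GivenBy k (n i) M (fun z => !f i z)

/-- The bound in terms of the rank `r` of the adjacency matrix:
`log₂ χ(G) ≤ log₂ t + 2 ^ k k (k + 1) (L + 2) (L + log₂ M + 5) + 4`, `L = log₂ r`. -/
theorem result : ∀ k M t : ℕ, 1 ≤ M → ∀ (V : Type) [Fintype V] (G : SimpleGraph V)
    [DecidableRel G.Adj], Covered G k M t →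
    Real.logb 2 (G.chromaticNumber.toNat : ℝ) ≤ Real.logb 2 t +
      (2 ^ k * (k * (k + 1)) * (Real.logb 2 ((G.adjMatrix ℝ).rank : ℝ) + 2) *
        (Real.logb 2 ((G.adjMatrix ℝ).rank : ℝ) + Real.logb 2 M + 5) + 4) := by
  classical
  intro k M t hM V _ G _ hcov
  obtain ⟨n, φ, f, hsurj, hadj, hcls⟩ := hcov
  obtain ⟨L, hL⟩ : ∃ L, L = Real.logb 2 ((G.adjMatrix ℝ).rank : ℝ) := ⟨_, rfl⟩
  obtain ⟨hL0, hrL⟩ := Pool.Agent.Helper12.Lr.log_bound hL
  rw [← hL]
  have hlogM : 0 ≤ Real.logb 2 M := Real.logb_nonneg (by norm_num) (by exact_mod_cast hM)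
  obtain ⟨B, hB⟩ : ∃ B : ℝ, B =
      2 ^ k * (k * (k + 1)) * (L + 2) * (L + Real.logb 2 M + 5) + 4 := ⟨_, rfl⟩
  rw [← hB]
  have hB0 : 0 ≤ B := by rw [hB]; positivity
  have hcol : ∀ i, (G.comap (φ i)).Colorable (2 ^ ⌊B⌋₊) := by
    intro i
    have key : ∃ F : Fin M → (Fin (n i) → ZMod 2) → Prop, (∀ j, IsConj k (n i) (F j)) ∧
        ((∀ z, f i z = true ↔ ∃ j, F j z) ∨ (∀ z, f i z = false ↔ ∃ j, F j z)) := by
      rcases hcls i with ⟨F, hF, h⟩ | ⟨F, hF, h⟩
      · exact ⟨F, hF, Or.inl h⟩
      · refine ⟨F, hF, Or.inr fun z => ?_⟩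
        rw [← h]
        show f i z = false ↔ (!f i z) = true
        cases f i z <;> simp
    obtain ⟨F, hF, h⟩ := key
    have hr : ((Matrix.of fun x y : Fin (n i) → ZMod 2 =>
        if f i (x + y) then (1 : ℝ) else 0).rank : ℝ) ≤ 2 ^ L := by
      refine le_trans ?_ hrL
      have e : (Matrix.of fun x y : Fin (n i) → ZMod 2 =>
          if f i (x + y) then (1 : ℝ) else 0) = (G.adjMatrix ℝ).submatrix (φ i) (φ i) := by
        ext x y
        rw [Matrix.of_apply, Matrix.submatrix_apply, SimpleGraph.adjMatrix_apply]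
        exact if_congr (hadj i x y).symm rfl rfl
      rw [e]
      exact_mod_cast Matrix.rank_submatrix_le (G.adjMatrix ℝ) (φ i) (φ i)
    obtain ⟨c, hc, hb⟩ := Pool.Agent.Helper12.Lr.final'' hM F hF h hL0 hr
    rw [← hB] at hb
    exact Pool.Agent.Helper12.Lr.chromatic (G.comap (φ i)) (fun x y => f i (x + y))
      (hc.mono (Nat.le_floor hb)) (fun x y => hadj i x y)
  choose ix ax hax using hsurj
  have hG : G.Colorable (t * 2 ^ ⌊B⌋₊) := by
    have hC : G.Coloring (Fin t × Fin (2 ^ ⌊B⌋₊)) :=
      SimpleGraph.Coloring.mk (fun v => (ix v, (hcol (ix v)).some (ax v))) (by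
        intro u v huv hne
        have h1 : ix u = ix v := congrArg Prod.fst hne
        have h2 : ∀ i j (a : Fin (n i) → ZMod 2) (b : Fin (n j) → ZMod 2), i = j →
            G.Adj (φ i a) (φ j b) → (hcol i).some a ≠ (hcol j).some b := by
          rintro i _ a b rfl h
          exact (hcol i).some.valid h
        refine h2 (ix u) (ix v) (ax u) (ax v) h1 ?_ (congrArg Prod.snd hne)
        rw [hax, hax]
        exact huv)
    have h4 := hC.colorable
    rwa [Fintype.card_prod, Fintype.card_fin, Fintype.card_fin] at h4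
  have h1 : G.chromaticNumber ≤ (t * 2 ^ ⌊B⌋₊ : ℕ) := hG.chromaticNumber_le
  have h2 : G.chromaticNumber.toNat ≤ t * 2 ^ ⌊B⌋₊ := ENat.toNat_le_of_le_coe h1
  rcases Nat.eq_zero_or_pos G.chromaticNumber.toNat with h0 | h0
  · rw [h0, Nat.cast_zero, Real.logb_zero]
    have : 0 ≤ Real.logb 2 (t : ℝ) := by
      rcases Nat.eq_zero_or_pos t with ht | ht
      · rw [ht, Nat.cast_zero, Real.logb_zero]
      · exact Real.logb_nonneg (by norm_num) (by exact_mod_cast ht)
    linarith
  · have ht : 0 < t := by
      rcases Nat.eq_zero_or_pos t with ht | ht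
      · rw [ht, zero_mul] at h2
        omega
      · exact ht
    have ht0 : (t : ℝ) ≠ 0 := by
      have : (0 : ℝ) < t := by exact_mod_cast ht
      exact this.ne'
    calc Real.logb 2 (G.chromaticNumber.toNat : ℝ) ≤ Real.logb 2 ((t * 2 ^ ⌊B⌋₊ : ℕ) : ℝ) :=
          Real.logb_le_logb_of_le (by norm_num) (by exact_mod_cast h0) (by exact_mod_cast h2)
      _ = Real.logb 2 t + ⌊B⌋₊ := by
          push_cast
          rw [Real.logb_mul ht0 (by positivity), ← Real.rpow_natCast,
            Real.logb_rpow (by norm_num) (by norm_num)]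
      _ ≤ Real.logb 2 t + B := by
          have := Nat.floor_le hB0
          linarith

end Pool.Agent.Results.MP_3bd889_lc.DepthThreeParities
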