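import Pool.Agent.V11160.LR.Pieces

/-!
# Chromatic number and rank for graphs whose neighbourhoods are cosets

Let the vertices of the graph `G` be covered by the images `V_i` of `t` maps `φ_i : A_i → V`, where the
`A_i` are arbitrary finite abelian groups. Suppose that for every vertex `v` of `V_i` the set
`{a ∈ A_i | v ~ φ_i a}`, or its complement, is closed under `u - v + w`; in other words it is empty or
a coset of a subgroup of `A_i` (for `A_i = F_2^n`: the set of solutions of a system of linear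
equations), with no condition on how it depends on `v`. Then
`log₂ χ(G) ≤ log₂ t + 4 (log₂ r + 2) ^ 2 + 1`, `r` being the real rank of the adjacency matrix. If `G` is
twin-free and `t = 1` (all neighbourhoods are cosets or complements of cosets) then also
`log₂ |V| ≤ 4 (log₂ r + 2) ^ 2 + 1`.
-/

set_option autoImplicit false

namespace Pool.Agent.Results.MP_3bd889_lc.MalcevNeighbourhoods

/-- `{a | ρ a = b}` is closed under `u - v + w` (it is empty or a coset of a subgroup). -/
def MalcevClosed {A : Type} [AddCommGroup A] (ρ : A → Bool) (b : Bool) : Prop :=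
  ∀ u v w, ρ u = b → ρ v = b → ρ w = b → ρ (u - v + w) = b

/-- the neighbourhood of `v`, seen in `A` -/
noncomputable def nbh {V A : Type} (G : SimpleGraph V) [DecidableRel G.Adj] (φ : A → V) (v : V)
    (a : A) : Bool := decide (G.Adj v (φ a))

theorem rank_le {V : Type} [Fintype V] [DecidableEq V] (G : SimpleGraph V) [DecidableRel G.Adj]
    {A : Type} [Fintype A] (φ : A → V) (W : Set V) [Fintype W] :
    (Pool.Agent.H630R2.LR.comm fun (v : W) (a : A) => nbh G φ v a).rank ≤ (G.adjMatrix ℝ).rank := by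
  have e : (Pool.Agent.H630R2.LR.comm fun (v : W) (a : A) => nbh G φ v a) =
      (G.adjMatrix ℝ).submatrix (fun v : W => (v : V)) φ := by
    ext v a
    simp [Pool.Agent.H630R2.LR.comm, nbh, SimpleGraph.adjMatrix_apply]
  rw [e]
  exact Matrix.rank_submatrix_le _ _ _

theorem main {V : Type} [Fintype V] [DecidableEq V] (G : SimpleGraph V) [DecidableRel G.Adj] (t : ℕ)
    (A : Fin t → Type) [∀ i, AddCommGroup (A i)] [∀ i, Fintype (A i)] (φ : ∀ i, A i → V)
    (hφ : ∀ v, ∃ i a, φ i a = v)
    (hG : ∀ i, ∀ v ∈ Set.range (φ i), ∃ b, MalcevClosed (nbh G (φ i) v) b) :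
    Real.logb 2 (G.chromaticNumber.toNat : ℝ) ≤
      Real.logb 2 t + 4 * (Real.logb 2 (G.adjMatrix ℝ).rank + 2) ^ 2 + 1 := by
  classical
  set r := (G.adjMatrix ℝ).rank with hr
  set B : ℝ := 4 * (Real.logb 2 r + 2) ^ 2 + 1 with hB
  have hr0 := Pool.Agent.V11160.LR.logb_nonneg' r
  set N : ℕ := ⌊(2 : ℝ) ^ B⌋₊ with hN
  have hpiece : ∀ i, ∃ e : Set.range (fun v : Set.range (φ i) => nbh G (φ i) v) → Fin N,
      Function.Injective e := by
    intro i
    have h1 := (Pool.Agent.V11160.LR.proto_of_closed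
      (fun (v : Set.range (φ i)) (a : A i) => nbh G (φ i) v a) (fun v => hG i v v.2)).1
    have h2 := Pool.Agent.V11160.LR.logb_mono' (rank_le G (φ i) (Set.range (φ i)))
    rw [← hr] at h2
    have h3 := Pool.Agent.V11160.LR.logb_nonneg'
      (Pool.Agent.H630R2.LR.comm fun (v : Set.range (φ i)) (a : A i) => nbh G (φ i) v a).rank
    have h4 : ((Set.range fun v : Set.range (φ i) => nbh G (φ i) v).ncard : ℝ) ≤ 2 ^ B := by
      refine h1.trans (Real.rpow_le_rpow_of_exponent_le one_le_two ?_)
      nlinarith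
    have h5 : (Set.range fun v : Set.range (φ i) => nbh G (φ i) v).ncard ≤ N := Nat.le_floor h4
    have h6 : Fintype.card (Set.range fun v : Set.range (φ i) => nbh G (φ i) v) ≤
        Fintype.card (Fin N) := by
      rw [Fintype.card_fin, ← Nat.card_eq_fintype_card, Nat.card_coe_set_eq]
      exact h5
    obtain ⟨e⟩ := Function.Embedding.nonempty_of_card_le h6
    exact ⟨e, e.injective⟩
  choose e he using hpiece
  choose i₀ a₀ ha₀ using hφ
  have hmem : ∀ v, nbh G (φ (i₀ v)) v ∈
      Set.range (fun v' : Set.range (φ (i₀ v)) => nbh G (φ (i₀ v)) v') :=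
    fun v => ⟨⟨v, ⟨a₀ v, ha₀ v⟩⟩, rfl⟩
  let col : V → Fin t × Fin N := fun v => (i₀ v, e (i₀ v) ⟨nbh G (φ (i₀ v)) v, hmem v⟩)
  have hcol : G.Coloring (Fin t × Fin N) := by
    refine SimpleGraph.Coloring.mk col fun {v w} hvw heq => ?_
    have h1 : i₀ v = i₀ w := congrArg Prod.fst heq
    have h2 := congrArg Prod.snd heq
    simp only [col] at h2
    have h3 : ∀ (i : Fin t) (hi : i₀ w = i)
        (hm : nbh G (φ i) w ∈ Set.range (fun v' : Set.range (φ i) => nbh G (φ i) v')),
        e (i₀ w) ⟨nbh G (φ (i₀ w)) w, hmem w⟩ = e i ⟨nbh G (φ i) w, hm⟩ := by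
      intro i hi hm
      subst hi
      rfl
    have hm : nbh G (φ (i₀ v)) w ∈
        Set.range (fun v' : Set.range (φ (i₀ v)) => nbh G (φ (i₀ v)) v') := by
      rw [h1]; exact hmem w
    rw [h3 (i₀ v) h1.symm hm] at h2
    have h4 := congrArg Subtype.val (he _ h2)
    have h5 := congrFun h4 (a₀ v)
    simp only [nbh, ha₀ v] at h5
    have h6 : decide (G.Adj w v) = true := decide_eq_true hvw.symm
    rw [h6] at h5
    exact G.loopless.irrefl v (of_decide_eq_true h5)
  have hc : G.Colorable (t * N) := by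
    have := hcol.colorable
    rwa [Fintype.card_prod, Fintype.card_fin, Fintype.card_fin] at this
  have h1 : G.chromaticNumber ≤ (t * N : ℕ) := hc.chromaticNumber_le
  have h2 : G.chromaticNumber.toNat ≤ t * N := by
    have := ENat.toNat_le_toNat h1 (ENat.natCast_ne_top _)
    rwa [ENat.toNat_natCast] at this
  have hNB : (N : ℝ) ≤ 2 ^ B := Nat.floor_le (by positivity)
  rcases Nat.eq_zero_or_pos G.chromaticNumber.toNat with h0 | h0
  · rw [h0, Nat.cast_zero, Real.logb_zero]
    have := Pool.Agent.V11160.LR.logb_nonneg' t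
    positivity
  · have ht : 0 < t := Nat.pos_of_mul_pos_right (h0.trans_le h2)
    have htr : (0 : ℝ) < t := by exact_mod_cast ht
    have h3 : (G.chromaticNumber.toNat : ℝ) ≤ t * 2 ^ B := by
      calc (G.chromaticNumber.toNat : ℝ) ≤ ((t * N : ℕ) : ℝ) := by exact_mod_cast h2
        _ = t * N := by push_cast; ring
        _ ≤ t * 2 ^ B := mul_le_mul_of_nonneg_left hNB htr.le
    calc Real.logb 2 (G.chromaticNumber.toNat : ℝ) ≤ Real.logb 2 (t * 2 ^ B) :=
          Real.logb_le_logb_of_le (by norm_num) (by exact_mod_cast h0) h3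
      _ = Real.logb 2 t + B := by
          rw [Real.logb_mul htr.ne' (by positivity), Real.logb_rpow (by norm_num) (by norm_num)]
      _ = _ := by rw [hB]; ring

/-- **Main result.** -/
theorem result :
    (∀ {V : Type} [Fintype V] [DecidableEq V] (G : SimpleGraph V) [DecidableRel G.Adj] (t : ℕ)
      (A : Fin t → Type) [∀ i, AddCommGroup (A i)] [∀ i, Fintype (A i)] (φ : ∀ i, A i → V),
      (∀ v, ∃ i a, φ i a = v) →
      (∀ i, ∀ v ∈ Set.range (φ i), ∃ b, MalcevClosed (nbh G (φ i) v) b) →
      Real.logb 2 (G.chromaticNumber.toNat : ℝ) ≤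
        Real.logb 2 t + 4 * (Real.logb 2 (G.adjMatrix ℝ).rank + 2) ^ 2 + 1) ∧
    (∀ {V : Type} [Fintype V] [DecidableEq V] (G : SimpleGraph V) [DecidableRel G.Adj]
      {A : Type} [AddCommGroup A] [Fintype A] (φ : A → V), Function.Surjective φ →
      (∀ v, ∃ b, MalcevClosed (nbh G φ v) b) →
      (∀ u v : V, u ≠ v → ¬ G.Adj u v → G.neighborSet u ≠ G.neighborSet v) →
      Real.logb 2 (Fintype.card V : ℝ) ≤ 4 * (Real.logb 2 (G.adjMatrix ℝ).rank + 2) ^ 2 + 1) := by
  classical
  refine ⟨fun G _ t A _ _ φ hφ hG => main G t A φ hφ hG, ?_⟩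
  intro V _ _ G _ A _ _ φ hφ hG htw
  set r := (G.adjMatrix ℝ).rank with hr
  have hr0 := Pool.Agent.V11160.LR.logb_nonneg' r
  have h1 := (Pool.Agent.V11160.LR.proto_of_closed
    (fun (v : (Set.univ : Set V)) (a : A) => nbh G φ v a) (fun v => hG v)).1
  have h2 := Pool.Agent.V11160.LR.logb_mono' (rank_le G φ Set.univ)
  rw [← hr] at h2
  have h3 := Pool.Agent.V11160.LR.logb_nonneg'
    (Pool.Agent.H630R2.LR.comm fun (v : (Set.univ : Set V)) (a : A) => nbh G φ v a).rank
  have hinj : Function.Injective fun (v : (Set.univ : Set V)) (a : A) => nbh G φ v a := by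
    intro u v huv
    have h4 : ∀ w, G.Adj u w ↔ G.Adj v w := by
      intro w
      obtain ⟨a, rfl⟩ := hφ w
      have := congrFun huv a
      simpa [nbh] using this
    by_contra hne
    have hne' : (u : V) ≠ v := fun h => hne (Subtype.ext h)
    refine htw u v hne' ?_ ?_
    · intro hadj
      exact G.loopless.irrefl (v : V) ((h4 v).1 hadj)
    · ext w
      exact h4 w
  have h4 : (Set.range fun (v : (Set.univ : Set V)) (a : A) => nbh G φ v a).ncard =
      Fintype.card V := by
    rw [← Nat.card_coe_set_eq, Nat.card_range_of_injective hinj, Nat.card_coe_set_eq,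
      Set.ncard_univ, Nat.card_eq_fintype_card]
  rw [h4] at h1
  rcases Nat.eq_zero_or_pos (Fintype.card V) with h0 | h0
  · rw [h0, Nat.cast_zero, Real.logb_zero]
    positivity
  · have h5 : (Fintype.card V : ℝ) ≤ 2 ^ (4 * (Real.logb 2 r + 2) ^ 2 + 1 : ℝ) := by
      refine h1.trans (Real.rpow_le_rpow_of_exponent_le one_le_two ?_)
      nlinarith
    rw [Real.logb_le_iff_le_rpow (by norm_num) (by exact_mod_cast h0)]
    exact h5

end Pool.Agent.Results.MP_3bd889_lc.MalcevNeighbourhoods
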