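import Pool.Agent.Results.MP_3bd889_lc.AlmostAllOrders
import Pool.Agent.Y854.GM.WinV
import Pool.Agent.V11260.OW

/-!
# Twin-free graphs with few automorphism orbits: ALL the orders in windows

From `MP_3bd889_lc.AlmostAllOrders`: `Exceptional E b` means that for every twin-free graph `G` of rank `r > 1`

* if `Γ` is any group of automorphisms of `G` with `t` orbits on the vertices, none of which has its size in `E`, then
  `log χ(G) ≤ log |V| ≤ log t + b r`;
* if `G` is connected and edge-transitive and its number of edges is not in `E`, then `log χ(G) ≤ log |V| ≤ log 2 + b r`.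
-/

set_option autoImplicit false

namespace Pool.Agent.Results.MP_3bd889_lc.OrdersInWindows

open Finset Filter Topology MeasureTheory
open Pool.Agent.Results.MP_3bd889_lc.AlmostAllOrders (Exceptional count)

/-- the exponent of convergence of the sequence `v` is at most `τ` -/
def ExpLe (v : ℕ → ℝ) (τ : ℝ) : Prop := ∀ t : ℝ, τ < t → Summable (fun n : ℕ => (v n) ^ (-t))

/-- `v n` grows at least like `exp (n ^ δ)` for some `δ > 0` -/
def Fast (v : ℕ → ℝ) : Prop := ∃ δ : ℝ, 0 < δ ∧ ∀ᶠ n : ℕ in atTop, (n : ℝ) ^ δ ≤ Real.log (v n)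

/-- the positive integers `m` with `|m - α v_n| ≤ L_n` for some `n ≥ n₀` -/
def Windows (α : ℝ) (v L : ℕ → ℝ) (n₀ : ℕ) : Set ℕ := {m : ℕ | 0 < m ∧ ∃ n : ℕ, n₀ ≤ n ∧ |(m : ℝ) - α * v n| ≤ L n}

lemma exc_mono {E F : Set ℕ} {b : ℝ → ℝ} (h : Exceptional E b) (hEF : E ⊆ F) : Exceptional F b := by
  intro V _ G _ hG hr
  obtain ⟨h1, h2⟩ := h V G hG hr
  exact ⟨fun Γ hΓ => h1 Γ fun v hv => hΓ v (hEF hv), fun hc he hn => h2 hc he fun hm => hn (hEF hm)⟩

/-- (1) Let `A ≥ 2`, `θ < 1`, and let `v_n ≥ 1` have exponent of convergence at most `τ`. For all `α > 0` outside a set of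
Hausdorff dimension at most `(1 - 1 / A + τ) / (1 - θ)` there is `n₀` such that the set of the integers which are in none of the
windows `|m - α v_n| ≤ v_n ^ θ`, `n ≥ n₀`, is exceptional for the bound `(r + 1) ^ (1 / A)`: if ALL the sizes of the orbits of a
group of automorphisms of a twin-free graph of rank `r > 1` are in such windows, then `log χ(G) ≤ log t + (r + 1) ^ (1 / A)`.

(2) Let `c > 2`, and let `v_n ≥ 1` grow at least like `exp (n ^ δ)` for some `δ > 0`. For almost all `α > 0` there is `n₀` such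
that the set of the integers which are in none of the windows `|m - α v_n| ≤ exp ((log v_n) ^ (1 - 1 / c) / 4)`, `n ≥ n₀`, is
exceptional for the bound `(2 log r) ^ c`.

(3) The sequences `(n + 1) ^ a` and `b ^ n` have exponent of convergence at most `1 / a` and `0`, and `b ^ n` is as in (2). -/
theorem result :
    (∀ A : ℝ, 2 ≤ A → ∀ (v : ℕ → ℝ) (τ θ : ℝ), (∀ n, 1 ≤ v n) → 0 ≤ τ → ExpLe v τ → θ < 1 →
      ∃ E : Set ℝ, dimH E ≤ ENNReal.ofReal ((1 - 1 / A + τ) / (1 - θ)) ∧ ∀ α : ℝ, 0 < α → α ∉ E →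
        ∃ n₀ : ℕ, Exceptional (Windows α v (fun n => (v n) ^ θ) n₀)ᶜ (fun r => (r + 1) ^ (1 / A))) ∧
    (∀ c : ℝ, 2 < c → ∀ v : ℕ → ℝ, (∀ n, 1 ≤ v n) → Fast v → ∀ᵐ α : ℝ, 0 < α →
      ∃ n₀ : ℕ, Exceptional (Windows α v (fun n => Real.exp ((Real.log (v n)) ^ (1 - 1 / c) / 4)) n₀)ᶜ
        (fun r => (2 * Real.log r) ^ c)) ∧
    (∀ a : ℝ, 0 < a → ExpLe (fun n : ℕ => ((n : ℝ) + 1) ^ a) (1 / a)) ∧
    (∀ b : ℝ, 1 < b → ExpLe (fun n : ℕ => b ^ n) 0 ∧ Fast (fun n : ℕ => b ^ n)) := by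
  classical
  refine ⟨fun A hA v τ θ hv hτ hE hθ => ?_, fun c hc v hv hf => ?_, fun a ha => Pool.Agent.Y854.GM.expLe_pow a ha,
    fun b hb => ⟨Pool.Agent.Y854.GM.expLe_geom b hb, Pool.Agent.V11260.OW.fastR_pow b hb⟩⟩
  · obtain ⟨F, hF1, hF2⟩ := AlmostAllOrders.result.2.2.2 A hA
    have hA1 : 1 / A ≤ 1 / 2 := one_div_le_one_div_of_le (by norm_num) hA
    have hA0 : 0 < 1 / A := by positivity
    have hvp : ∀ n, 0 < v n := fun n => lt_of_lt_of_le one_pos (hv n)
    have htv : Tendsto v atTop atTop := Pool.Agent.Y854.GM.tendsto_of_expLe hvp hτ hE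
    obtain ⟨E, hE1, hE2⟩ := Pool.Agent.Y854.GM.windowsV (s := 1 - 1 / A) (fun _ => {m : ℕ | m ∈ F ∧ 0 < m})
      (fun _ (m : ℕ) => (m : ℝ)) 1 hv hτ hE (by linarith) hθ (by
        intro B ε hε
        obtain ⟨x0, hx0⟩ := hF1 ε hε
        obtain ⟨n₁, hn₁⟩ := Filter.eventually_atTop.1 (htv.eventually_ge_atTop (x0 : ℝ))
        refine ⟨((B : ℝ) + 1) ^ (1 - 1 / A + ε), n₁ , fun n hn => ?_⟩
        have hB0 : (0 : ℝ) ≤ B := Nat.cast_nonneg B
        have hz : 0 ≤ ((B : ℝ) + 1) * v n := mul_nonneg (by positivity) (hvp n).le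
        have hvz : v n ≤ ((B : ℝ) + 1) * v n := by nlinarith [hvp n]
        set X : ℕ := ⌊((B : ℝ) + 1) * v n⌋₊ with hX
        have hXx : x0 ≤ X := Nat.le_floor ((hn₁ n hn).trans hvz)
        have hsub : {m : ℕ | m ∈ {m : ℕ | m ∈ F ∧ 0 < m} ∧ (m : ℝ) ≤ ((B : ℝ) + 1) * v n} ⊆
            (((Finset.Ioc 0 X).filter (fun m => m ∈ F) : Finset ℕ) : Set ℕ) := by
          rintro m ⟨⟨h1, h2⟩, h3⟩
          rw [Finset.mem_coe, mem_filter, mem_Ioc]
          exact ⟨⟨h2, Nat.le_floor h3⟩, h1⟩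
        refine ⟨(Finset.finite_toSet _).subset hsub, ?_⟩
        have h1 : ({m : ℕ | m ∈ {m : ℕ | m ∈ F ∧ 0 < m} ∧ (m : ℝ) ≤ ((B : ℝ) + 1) * v n}.ncard : ℝ) ≤ (count F X : ℝ) := by
          have h2 := (Set.ncard_le_ncard hsub (Finset.finite_toSet _)).trans_eq (Set.ncard_coe_finset _)
          refine (Nat.cast_le.2 h2).trans (le_of_eq ?_)
          unfold count
          congr!
        refine h1.trans ((hx0 X hXx).trans ?_)
        rw [← Real.mul_rpow (by positivity) (hvp n).le]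
        exact Real.rpow_le_rpow (Nat.cast_nonneg X) (Nat.floor_le hz) (by linarith))
    refine ⟨E, hE1, fun α hα hαE => ?_⟩
    obtain ⟨n₀, hn₀⟩ := hE2 α hα hαE
    refine ⟨n₀, exc_mono hF2 fun m hm hW => ?_⟩
    obtain ⟨hm0, n, hn, hw⟩ := hW
    have h1 := hn₀ n hn m ⟨hm, hm0⟩
    rw [one_mul] at h1
    exact absurd hw (not_le.2 h1)
  · obtain ⟨F, ⟨x0, hx0⟩, hF2⟩ := AlmostAllOrders.result.2.2.1 c hc
    have hc0 : 0 < 1 / c := by positivity
    have hc1 : 1 / c < 1 := by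
      rw [div_lt_one (by linarith)]
      linarith
    have h1 := Pool.Agent.V11260.OW.ae_windows F (γ := 1 - 1 / c) (by linarith) (by linarith) x0 (fun x hx => by
      refine le_trans (le_of_eq ?_) (hx0 x hx)
      unfold count
      congr!) hv hf
    filter_upwards [h1] with α hα hα0
    obtain ⟨n₀, hn₀⟩ := hα hα0
    refine ⟨n₀, exc_mono hF2 fun m hm hW => ?_⟩
    obtain ⟨hm0, n, hn, hw⟩ := hW
    exact absurd hw (not_le.2 (hn₀ n hn m hm hm0))

end Pool.Agent.Results.MP_3bd889_lc.OrdersInWindows
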