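import Mathlib
import Pool.Agent.Results.MP_3bd889_lc.AlmostAllOrders
import Pool.Agent.V11109.DEC.Dens

/-!
# Twin-free graphs with few automorphism orbits: orders in sparse sequences (MP_3bd889_lc)

Let `p > 1` be a real number. There is a set `A₀` of real numbers of Hausdorff dimension smaller than
one such that the following holds for all `α > 0` outside `A₀`, with `t_j = ⌊α j ^ p⌋` (there are about
`X ^ (1 / p)` terms up to `X`), and all integers `q ≥ 1`.

* For every `η > 0` there are a constant `C` and a set `E`, which do not depend on `α`, such that `q t_j`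
  lies in `E` for at most `η N` of the `j ≤ N`, `N` large, and such that for every twin-free graph of rank
  `r > 1` with a group of automorphisms with `t` orbits on the vertices, none of which has its size in `E`,
  `log χ(G) ≤ log |V| ≤ log t + C log r`; and if `G` is connected and edge-transitive and its number of
  edges is not in `E`, then `log χ(G) ≤ log |V| ≤ log 2 + C log r`.
* For every `c > 2` there is a set `E`, which does not depend on `α`, such that `q t_j` lies in `E` for at most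
  `O(N / (log N) ^ B)` of the `j ≤ N`, for all `B`, and such that outside `E` the same holds with
  `(2 log r) ^ c` in place of `C log r`.
-/

set_option autoImplicit false

namespace Pool.Agent.Results.MP_3bd889_lc.SparseOrders

open Finset Filter Topology

open Pool.Agent.V11109.DEC (nterm Few)
open Pool.Agent.V11109.MOM (cnt)
open Pool.Agent.Results.MP_3bd889_lc.AlmostAllOrders (TwinFree EdgeTransitive count Exceptional)

/-- For all `q ≥ 1` there is a constant `C` such that for all `α > 0` outside `A₀` and all large `N` at most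
`C N (log N) ^ (-B)` of the `j ≤ N` are such that `q t_j > 0` has the property `P`. -/
def RareNat (p : ℝ) (A₀ : Set ℝ) (B : ℝ) (P : ℕ → Prop) : Prop :=
  ∀ q : ℕ, 1 ≤ q → ∃ C : ℝ, ∀ α : ℝ, 0 < α → α ∉ A₀ → ∃ N₀ : ℕ, ∀ N : ℕ, N₀ ≤ N →
    (cnt N (fun j => 0 < q * nterm p α j ∧ P (q * nterm p α j)) : ℝ) ≤ C * N * (Real.log N) ^ (-B)

lemma exceptional_mono {E : Set ℕ} {b b' : ℝ → ℝ} (h : ∀ r : ℝ, 2 ≤ r → b r ≤ b' r)
    (hE : Exceptional E b) : Exceptional E b' := by
  intro V _ G _ hG hr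
  obtain ⟨h1, h2⟩ := hE V G hG hr
  have hb := h ((G.adjMatrix ℝ).rank : ℝ) (by exact_mod_cast hr)
  refine ⟨fun Γ hΓ => ⟨(h1 Γ hΓ).1, (h1 Γ hΓ).2.trans (by linarith)⟩,
    fun hc he hn => ⟨(h2 hc he hn).1, (h2 hc he hn).2.trans (by linarith)⟩⟩

open Classical in
lemma count_eq (E : Set ℕ) (X : ℕ) : {n : ℕ | 1 ≤ n ∧ n ≤ X ∧ n ∈ E}.ncard = count E X := by
  unfold count
  rw [← Set.ncard_coe_finset]
  congr 1
  ext n
  rw [Finset.mem_coe, Finset.mem_filter, Finset.mem_Ioc, Set.mem_ofPred_eq]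
  constructor
  · rintro ⟨h1, h2, h3⟩
    exact ⟨⟨h1, h2⟩, h3⟩
  · rintro ⟨⟨h1, h2⟩, h3⟩
    exact ⟨h1, h2, h3⟩

lemma count_int (E : Set ℕ) (X : ℕ) :
    {d : ℤ | d.natAbs ≤ X ∧ (0 < d ∧ d.toNat ∈ E)}.ncard ≤ count E X := by
  rw [← count_eq]
  refine Set.ncard_le_ncard_of_injOn (fun d : ℤ => d.toNat) ?_ ?_
    ((Set.finite_Icc 1 X).subset fun n hn => ⟨hn.1, hn.2.1⟩)
  · rintro d ⟨h1, h2, h3⟩
    exact ⟨by omega, by omega, h3⟩
  · rintro a ⟨-, ha, -⟩ b ⟨-, hb, -⟩ hab
    have hab' : a.toNat = b.toNat := hab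
    omega

/-- **Main result.** -/
theorem result (p : ℝ) (hp : 1 < p) : ∃ A₀ : Set ℝ, dimH A₀ < 1 ∧
    (∀ η : ℝ, 0 < η → ∀ q : ℕ, 1 ≤ q → ∃ (C : ℝ) (E : Set ℕ),
      Exceptional E (fun r => C * Real.log r) ∧ Few p A₀ η q (fun n => n ∈ E)) ∧
    (∀ c : ℝ, 2 < c → ∃ E : Set ℕ, Exceptional E (fun r => (2 * Real.log r) ^ c) ∧
      ∀ B : ℝ, 0 < B → RareNat p A₀ B (fun n => n ∈ E)) := by
  obtain ⟨-, hpoly, hquasi, -⟩ := AlmostAllOrders.result
  have hpoly' : ∀ m : ℕ, ∃ (C : ℝ) (E : Set ℕ), (∀ x : ℕ, (count E x : ℝ) ≤ 1 / ((m : ℝ) + 1) * x) ∧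
      Exceptional E (fun r => C * Real.log r) := fun m => hpoly _ (by positivity)
  choose C E hE1 hE2 using hpoly'
  have hquasi' : ∀ c : {c : ℚ // 2 < (c : ℝ)}, ∃ E : Set ℕ, (∃ x0 : ℕ, ∀ x : ℕ, x0 ≤ x →
        (count E x : ℝ) ≤ x * Real.exp (-(Real.log x) ^ (1 - 1 / ((c : ℚ) : ℝ)) / 2)) ∧
      Exceptional E (fun r => (2 * Real.log r) ^ ((c : ℚ) : ℝ)) := fun c => hquasi _ c.2
  choose F hF1 hF2 using hquasi'
  obtain ⟨A₁, hA₁, h₁⟩ := Pool.Agent.V11109.DEC.few p hp (fun (m : ℕ) n => n ∈ E m)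
  obtain ⟨A₂, hA₂, -, h₂⟩ := Pool.Agent.V11109.DEC.rare p hp
    (fun (c : {c : ℚ // 2 < (c : ℝ)}) d => 0 < d ∧ d.toNat ∈ F c)
  refine ⟨A₁ ∪ A₂, ?_, fun η hη q hq => ?_, fun c hc => ?_⟩
  · rw [dimH_union]
    exact max_lt hA₁ hA₂
  · have hq0 : (0 : ℝ) < q := by exact_mod_cast hq
    obtain ⟨m, hm⟩ := exists_nat_one_div_lt (show 0 < η / (2 * q) by positivity)
    refine ⟨C m, E m, hE2 m, fun α hα hαE => ?_⟩
    refine h₁ m η hη q hq ⟨0, fun X _ => ?_⟩ α hα (fun h => hαE (Or.inl h))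
    rw [count_eq]
    exact (hE1 m X).trans (mul_le_mul_of_nonneg_right hm.le (Nat.cast_nonneg X))
  · obtain ⟨c', hc1, hc2⟩ := exists_rat_btwn hc
    refine ⟨F ⟨c', hc1⟩, exceptional_mono (fun r hr => ?_) (hF2 ⟨c', hc1⟩), fun B hB q hq => ?_⟩
    · refine Real.rpow_le_rpow_of_exponent_le ?_ hc2.le
      have h1 : Real.log 2 ≤ Real.log r := Real.log_le_log (by norm_num) hr
      have h2 := Real.log_two_gt_d9
      linarith
    · obtain ⟨K, hK⟩ := Pool.Agent.V11109.DEC.extend
        (fun d : ℤ => 0 < d ∧ d.toNat ∈ F ⟨c', hc1⟩) B hB.le (by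
          obtain ⟨x0, hx0⟩ := hF1 ⟨c', hc1⟩
          have hs : 0 < 1 - 1 / (c' : ℝ) := by
            have h1 : (0 : ℝ) < c' := by linarith
            rw [sub_pos, div_lt_one h1]
            linarith
          have hev : ∀ᶠ y : ℝ in atTop, B * Real.log y ≤ y ^ (1 - 1 / (c' : ℝ)) / 2 := by
            have h1 := (isLittleO_log_rpow_atTop hs).bound (c := 1 / (2 * B)) (by positivity)
            filter_upwards [h1, eventually_ge_atTop 1] with y hy hy1
            rw [Real.norm_eq_abs, Real.norm_eq_abs, abs_of_nonneg (Real.log_nonneg hy1),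
              abs_of_nonneg (Real.rpow_nonneg (by linarith) _)] at hy
            calc B * Real.log y ≤ B * (1 / (2 * B) * y ^ (1 - 1 / (c' : ℝ))) := by gcongr
              _ = _ := by field_simp
          have hev2 := (Real.tendsto_log_atTop.comp tendsto_natCast_atTop_atTop).eventually
            (hev.and (eventually_ge_atTop 1))
          obtain ⟨X₁, hX₁⟩ := Filter.eventually_atTop.1 hev2
          refine ⟨max x0 X₁, fun X hX => ?_⟩
          obtain ⟨h3, h4⟩ := hX₁ X ((le_max_right _ _).trans hX)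
          simp only [Function.comp] at h3 h4
          have h5 := hx0 X ((le_max_left _ _).trans hX)
          refine le_trans (Nat.cast_le.2 (count_int (F ⟨c', hc1⟩) X)) (h5.trans ?_)
          refine mul_le_mul_of_nonneg_left ?_ (Nat.cast_nonneg X)
          rw [show (Real.log X) ^ (-B) = Real.exp (Real.log (Real.log X) * -B) from
            Real.rpow_def_of_pos (by linarith) _]
          apply Real.exp_le_exp.2
          have h6 : Real.log (Real.log X) * -B = -(B * Real.log (Real.log X)) := by ring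
          rw [h6]
          have h7 : -(Real.log X) ^ (1 - 1 / (c' : ℝ)) / 2 = -((Real.log X) ^ (1 - 1 / (c' : ℝ)) / 2) := by
            ring
          refine le_trans (le_of_eq h7) ?_
          linarith)
      obtain ⟨K', hK'⟩ := h₂ ⟨c', hc1⟩ K B hB.le hK (q : ℤ) (by exact_mod_cast (by omega : q ≠ 0))
      refine ⟨K', fun α hα hαE => ?_⟩
      obtain ⟨N₀, hN₀⟩ := hK' α hα (fun h => hαE (Or.inr h))
      refine ⟨N₀, fun N hN => le_trans ?_ (hN₀ N hN)⟩
      refine Nat.cast_le.2 (Pool.Agent.V11109.MOM.cnt_mono fun j _ hj => ?_)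
      have e : (q : ℤ) * Pool.Agent.V11109.DEC.term p α j = ((q * nterm p α j : ℕ) : ℤ) := by
        unfold Pool.Agent.V11109.DEC.term nterm
        push_cast
        rfl
      rw [e]
      refine ⟨by exact_mod_cast hj.1, ?_⟩
      rw [Int.toNat_natCast]
      exact hj.2

end Pool.Agent.Results.MP_3bd889_lc.SparseOrders
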